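import Mathlib

/-!
# Minimal wall length of square tilings by distinct rectangles

In the middle regime `T_{m-2} ≤ n < T_{m-1}` (`m ≥ 7`) the minimal internal wall length of a tiling
of the `n × n` square by `m` pairwise non-congruent integer rectangles is `n + 2 (m - 2)`.
-/

namespace Pool.Agent.Results.MP_88b750_co.WallLength

set_option linter.unusedSectionVars false
set_option linter.unusedSimpArgs false

open Finset

/-! ## The combinatorial model: tiles as sets of unit cells -/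

section cells

variable {ι : Type} [DecidableEq ι]

/-- The cell `(p, q)` belongs to the tile `i`. -/
def InTile (x y a b : ι → ℕ) (i : ι) (p q : ℕ) : Prop :=
  x i ≤ p ∧ p < x i + a i ∧ y i ≤ q ∧ q < y i + b i

/-- The tiles in `s` tile the rectangle `[X, X + w) × [Y, Y + h)`. -/
structure Tiles (x y a b : ι → ℕ) (s : Finset ι) (X Y w h : ℕ) : Prop where
  pos : ∀ i ∈ s, 1 ≤ a i ∧ 1 ≤ b i
  sub : ∀ i ∈ s, X ≤ x i ∧ x i + a i ≤ X + w ∧ Y ≤ y i ∧ y i + b i ≤ Y + h
  ex : ∀ p q, X ≤ p → p < X + w → Y ≤ q → q < Y + h → ∃ i ∈ s, InTile x y a b i p q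
  un : ∀ i ∈ s, ∀ j ∈ s, ∀ p q, InTile x y a b i p q → InTile x y a b j p q → i = j

theorem Tiles.swap {x y a b : ι → ℕ} {s : Finset ι} {X Y w h : ℕ}
    (H : Tiles x y a b s X Y w h) : Tiles y x b a s Y X h w where
  pos i hi := ⟨(H.pos i hi).2, (H.pos i hi).1⟩
  sub i hi := by
    obtain ⟨h1, h2, h3, h4⟩ := H.sub i hi
    exact ⟨h3, h4, h1, h2⟩
  ex p q h1 h2 h3 h4 := by
    obtain ⟨i, hi, h5, h6, h7, h8⟩ := H.ex q p h3 h4 h1 h2
    exact ⟨i, hi, h7, h8, h5, h6⟩
  un i hi j hj p q h1 h2 := by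
    obtain ⟨a1, a2, a3, a4⟩ := h1
    obtain ⟨b1, b2, b3, b4⟩ := h2
    exact H.un i hi j hj q p ⟨a3, a4, a1, a2⟩ ⟨b3, b4, b1, b2⟩

/-- No vertical full cut. -/
def NoCut (x a : ι → ℕ) (s : Finset ι) (X w : ℕ) : Prop :=
  ∀ c, 0 < c → c < w → ∃ i ∈ s, x i < X + c ∧ X + c < x i + a i

theorem Tiles.split {x y a b : ι → ℕ} {s : Finset ι} {X Y w h : ℕ}
    (H : Tiles x y a b s X Y w h) (hcut : ¬ NoCut x a s X w) :
    ∃ c s₁ s₂, 0 < c ∧ 2 * c ≤ w ∧ s₁ ∪ s₂ = s ∧ Disjoint s₁ s₂ ∧
      (∃ X₁, Tiles x y a b s₁ X₁ Y c h) ∧ (∃ X₂, Tiles x y a b s₂ X₂ Y (w - c) h) := by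
  unfold NoCut at hcut
  push Not at hcut
  obtain ⟨c, hc0, hcw, hc⟩ := hcut
  have hdich : ∀ i ∈ s, x i + a i ≤ X + c ∨ X + c ≤ x i := by
    intro i hi
    by_cases h1 : x i < X + c
    · exact Or.inl (by have := hc i hi h1; omega)
    · exact Or.inr (by omega)
  set s₁ := s.filter (fun i => x i + a i ≤ X + c) with hs₁
  set s₂ := s.filter (fun i => X + c ≤ x i) with hs₂
  have hun : s₁ ∪ s₂ = s := by
    ext i
    simp only [hs₁, hs₂, mem_union, mem_filter]
    constructor
    · rintro (h | h) <;> exact h.1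
    · intro hi
      rcases hdich i hi with h | h
      · exact Or.inl ⟨hi, h⟩
      · exact Or.inr ⟨hi, h⟩
  have hdis : Disjoint s₁ s₂ := by
    rw [Finset.disjoint_left]
    intro i h1 h2
    rw [hs₁, mem_filter] at h1
    rw [hs₂, mem_filter] at h2
    have := (H.pos i h1.1).1
    omega
  have T1 : Tiles x y a b s₁ X Y c h :=
    { pos := fun i hi => H.pos i (mem_filter.1 hi).1
      sub := fun i hi => by
        obtain ⟨h1, h2⟩ := mem_filter.1 hi
        obtain ⟨h3, h4, h5, h6⟩ := H.sub i h1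
        exact ⟨h3, h2, h5, h6⟩
      ex := fun p q h1 h2 h3 h4 => by
        obtain ⟨i, hi, h5⟩ := H.ex p q h1 (by omega) h3 h4
        refine ⟨i, mem_filter.2 ⟨hi, ?_⟩, h5⟩
        rcases hdich i hi with h | h
        · exact h
        · have := h5.1; omega
      un := fun i hi j hj => H.un i (mem_filter.1 hi).1 j (mem_filter.1 hj).1 }
  have T2 : Tiles x y a b s₂ (X + c) Y (w - c) h :=
    { pos := fun i hi => H.pos i (mem_filter.1 hi).1
      sub := fun i hi => by
        obtain ⟨h1, h2⟩ := mem_filter.1 hi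
        obtain ⟨h3, h4, h5, h6⟩ := H.sub i h1
        exact ⟨h2, by omega, h5, h6⟩
      ex := fun p q h1 h2 h3 h4 => by
        obtain ⟨i, hi, h5⟩ := H.ex p q (by omega) (by omega) h3 h4
        refine ⟨i, mem_filter.2 ⟨hi, ?_⟩, h5⟩
        rcases hdich i hi with h | h
        · have := h5.2.1; omega
        · exact h
      un := fun i hi j hj => H.un i (mem_filter.1 hi).1 j (mem_filter.1 hj).1 }
  by_cases h2c : 2 * c ≤ w
  · exact ⟨c, s₁, s₂, hc0, h2c, hun, hdis, ⟨_, T1⟩, ⟨_, T2⟩⟩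
  · refine ⟨w - c, s₂, s₁, by omega, by omega, by rw [union_comm]; exact hun, hdis.symm,
      ⟨_, T2⟩, ⟨X, ?_⟩⟩
    rw [show w - (w - c) = c by omega]
    exact T1

/-- The tiles that meet a column have total height `h`. -/
theorem Tiles.column {x y a b : ι → ℕ} {s : Finset ι} {X Y w h : ℕ}
    (H : Tiles x y a b s X Y w h) (p : ℕ) (h1 : X ≤ p) (h2 : p < X + w) :
    ∑ i ∈ s.filter (fun i => x i ≤ p ∧ p < x i + a i), b i = h := by
  have h3 : ∀ i ∈ s.filter (fun i => x i ≤ p ∧ p < x i + a i),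
      b i = ∑ q ∈ Ico Y (Y + h), if y i ≤ q ∧ q < y i + b i then 1 else 0 := by
    intro i hi
    obtain ⟨hi, _⟩ := mem_filter.1 hi
    obtain ⟨_, _, h5, h6⟩ := H.sub i hi
    rw [← card_filter]
    have h7 : (Ico Y (Y + h)).filter (fun q => y i ≤ q ∧ q < y i + b i) =
        Ico (y i) (y i + b i) := by
      ext q
      simp only [mem_filter, mem_Ico]
      omega
    rw [h7, Nat.card_Ico]
    omega
  rw [sum_congr rfl h3, sum_comm]
  have h4 : ∀ q ∈ Ico Y (Y + h), ∑ i ∈ s.filter (fun i => x i ≤ p ∧ p < x i + a i),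
      (if y i ≤ q ∧ q < y i + b i then 1 else 0) = 1 := by
    intro q hq
    rw [mem_Ico] at hq
    rw [← card_filter, filter_filter, card_eq_one]
    obtain ⟨i, hi, h5, h6, h7, h8⟩ := H.ex p q h1 h2 hq.1 hq.2
    refine ⟨i, ?_⟩
    ext j
    simp only [mem_filter, mem_singleton]
    constructor
    · rintro ⟨hj, ⟨h9, h10⟩, h11, h12⟩
      exact H.un j hj i hi p q ⟨h9, h10, h11, h12⟩ ⟨h5, h6, h7, h8⟩
    · rintro rfl
      exact ⟨hi, ⟨h5, h6⟩, h7, h8⟩
  rw [sum_congr rfl h4]
  simp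

/-- Sum of the widths as a sum over columns. -/
theorem Tiles.sum_width {x y a b : ι → ℕ} {s : Finset ι} {X Y w h : ℕ}
    (H : Tiles x y a b s X Y w h) :
    ∑ i ∈ s, a i = ∑ p ∈ Ico X (X + w), (s.filter (fun i => x i ≤ p ∧ p < x i + a i)).card := by
  simp only [card_filter]
  rw [sum_comm]
  refine sum_congr rfl (fun i hi => ?_)
  obtain ⟨h3, h4, _, _⟩ := H.sub i hi
  rw [← card_filter]
  have h7 : (Ico X (X + w)).filter (fun p => x i ≤ p ∧ p < x i + a i) =
      Ico (x i) (x i + a i) := by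
    ext q
    simp only [mem_filter, mem_Ico]
    omega
  rw [h7, Nat.card_Ico]
  omega

theorem Tiles.nonempty {x y a b : ι → ℕ} {s : Finset ι} {X Y w h : ℕ}
    (H : Tiles x y a b s X Y w h) (hw : 0 < w) (hh : 0 < h) : s.Nonempty := by
  obtain ⟨i, hi, _⟩ := H.ex X Y le_rfl (by omega) le_rfl (by omega)
  exact ⟨i, hi⟩

/-- Without vertical full cuts and with at least two tiles, every column meets two tiles. -/
theorem Tiles.two_le {x y a b : ι → ℕ} {s : Finset ι} {X Y w h : ℕ}
    (H : Tiles x y a b s X Y w h) (hh : 0 < h) (hcut : NoCut x a s X w) (hs : 2 ≤ s.card) :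
    2 * w ≤ ∑ i ∈ s, a i := by
  rw [H.sum_width]
  have key : ∀ p ∈ Ico X (X + w), 2 ≤ (s.filter (fun i => x i ≤ p ∧ p < x i + a i)).card := by
    intro p hp
    rw [mem_Ico] at hp
    by_contra hlt
    push Not at hlt
    obtain ⟨i, hi, h5, h6, h7, h8⟩ := H.ex p Y hp.1 hp.2 le_rfl (by omega)
    have himem : i ∈ s.filter (fun i => x i ≤ p ∧ p < x i + a i) := mem_filter.2 ⟨hi, h5, h6⟩
    have hone : (s.filter (fun i => x i ≤ p ∧ p < x i + a i)) = {i} := by
      have h9 : (s.filter (fun i => x i ≤ p ∧ p < x i + a i)).card = 1 := by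
        have := card_pos.2 ⟨i, himem⟩
        omega
      obtain ⟨j, hj⟩ := card_eq_one.1 h9
      rw [hj] at himem ⊢
      rw [mem_singleton.1 himem]
    have hcol := H.column p hp.1 hp.2
    rw [hone, sum_singleton] at hcol
    obtain ⟨s1, s2, s3, s4⟩ := H.sub i hi
    have hpi := (H.pos i hi).1
    -- any tile meeting the columns of `i` is `i`
    have huniq : ∀ j ∈ s, ∀ r, x i ≤ r → r < x i + a i → x j ≤ r → r < x j + a j → j = i := by
      intro j hj r r1 r2 r3 r4
      obtain ⟨t1, t2, t3, t4⟩ := H.sub j hj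
      have := (H.pos j hj).2
      exact H.un j hj i hi r (y j) ⟨r3, r4, le_rfl, by omega⟩ ⟨r1, r2, by omega, by omega⟩
    have hX : x i = X := by
      by_contra hne
      obtain ⟨j, hj, j1, j2⟩ := hcut (x i - X) (by omega) (by omega)
      have := huniq j hj (x i) le_rfl (by omega) (by omega) (by omega)
      subst this
      omega
    have hW : x i + a i = X + w := by
      by_contra hne
      obtain ⟨j, hj, j1, j2⟩ := hcut (x i + a i - X) (by omega) (by omega)
      have := huniq j hj (x i + a i - 1) (by omega) (by omega) (by omega) (by omega)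
      subst this
      omega
    have hall : s ⊆ {i} := by
      intro j hj
      obtain ⟨t1, t2, t3, t4⟩ := H.sub j hj
      have := (H.pos j hj).1
      rw [mem_singleton]
      exact huniq j hj (x j) (by omega) (by omega) le_rfl (by omega)
    have := card_le_card hall
    rw [card_singleton] at this
    omega
  calc 2 * w = ∑ p ∈ Ico X (X + w), 2 := by simp [mul_comm]
    _ ≤ _ := sum_le_sum key

/-- Without vertical full cuts, the sum of `a i - 1` is at least `w - 1`. -/
theorem noCut_sum {x y a b : ι → ℕ} {s : Finset ι} {X Y w h : ℕ}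
    (H : Tiles x y a b s X Y w h) (hcut : NoCut x a s X w) :
    w - 1 ≤ ∑ i ∈ s, (a i - 1) := by
  have h1 : ∑ i ∈ s, (a i - 1) =
      ∑ c ∈ Ico 1 w, (s.filter (fun i => x i < X + c ∧ X + c < x i + a i)).card := by
    simp only [card_filter]
    rw [sum_comm]
    refine sum_congr rfl (fun i hi => ?_)
    obtain ⟨h3, h4, _, _⟩ := H.sub i hi
    have h0 := (H.pos i hi).1
    rw [← card_filter]
    have h7 : (Ico 1 w).filter (fun c => x i < X + c ∧ X + c < x i + a i) =
        Ico (x i - X + 1) (x i - X + a i) := by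
      ext q
      simp only [mem_filter, mem_Ico]
      omega
    rw [h7, Nat.card_Ico]
    omega
  rw [h1]
  calc w - 1 = ∑ c ∈ Ico 1 w, 1 := by simp
    _ ≤ _ := sum_le_sum (fun c hc => by
        rw [mem_Ico] at hc
        obtain ⟨i, hi, h2⟩ := hcut c (by omega) hc.2
        exact card_pos.2 ⟨i, mem_filter.2 ⟨hi, h2⟩⟩)

end cells

/-! ## The lower bound -/

section lower

variable {ι : Type} [DecidableEq ι]

/-- The quantity `Σ (a - 1) + (b - 1)`. -/
def DD (a b : ι → ℕ) (s : Finset ι) : ℕ := ∑ i ∈ s, ((a i - 1) + (b i - 1))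

/-- The shapes of the tiles in `s` are pairwise distinct as unordered pairs. -/
def Dist (a b : ι → ℕ) (s : Finset ι) : Prop :=
  ∀ i ∈ s, ∀ j ∈ s, i ≠ j → ¬ (a i = a j ∧ b i = b j) ∧ ¬ (a i = b j ∧ b i = a j)

theorem Dist.swap {a b : ι → ℕ} {s : Finset ι} (h : Dist a b s) : Dist b a s := by
  intro i hi j hj hij
  obtain ⟨h1, h2⟩ := h i hi j hj hij
  exact ⟨fun h3 => h1 ⟨h3.2, h3.1⟩, fun h3 => h2 ⟨h3.2, h3.1⟩⟩

theorem Dist.mono {a b : ι → ℕ} {s t : Finset ι} (h : Dist a b s) (hts : t ⊆ s) : Dist a b t :=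
  fun i hi j hj => h i (hts hi) j (hts hj)

theorem DD_swap (a b : ι → ℕ) (s : Finset ι) : DD b a s = DD a b s :=
  sum_congr rfl (fun i _ => by ring)

theorem DD_union {a b : ι → ℕ} {s t : Finset ι} (h : Disjoint s t) :
    DD a b (s ∪ t) = DD a b s + DD a b t := sum_union h

theorem triangle_aux (F : Finset ℕ) (hF : ∀ x ∈ F, 1 ≤ x) :
    F.card * (F.card + 1) ≤ 2 * ∑ x ∈ F, x := by
  induction F using Finset.induction_on_max with
  | empty => simp
  | insert m F hmax ih =>
    have hm : m ∉ F := fun h => lt_irrefl _ (hmax m h)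
    have h1 : F ⊆ Ico 1 m := fun x hx => mem_Ico.2 ⟨hF x (mem_insert_of_mem hx), hmax x hx⟩
    have h2 := card_le_card h1
    rw [Nat.card_Ico] at h2
    have h3 := ih (fun x hx => hF x (mem_insert_of_mem hx))
    have h4 := hF m (mem_insert_self m F)
    rw [card_insert_of_notMem hm, sum_insert hm]
    have h5 : F.card + 1 ≤ m := by omega
    nlinarith

theorem triangle {a b : ι → ℕ} {s : Finset ι} (hpos : ∀ i ∈ s, 1 ≤ a i ∧ 1 ≤ b i)
    (h1 : ∀ i ∈ s, a i = 1 ∨ b i = 1) (hd : Dist a b s) :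
    s.card * (s.card + 1) ≤ 2 * (DD a b s + s.card) := by
  have hinj : Set.InjOn (fun i => (a i - 1) + (b i - 1) + 1) (s : Set ι) := by
    intro i hi j hj hij
    by_contra hne
    obtain ⟨h2, h3⟩ := hd i hi j hj hne
    have p1 := hpos i hi
    have p2 := hpos j hj
    simp only at hij
    rcases h1 i hi with e1 | e1 <;> rcases h1 j hj with e2 | e2
    · exact h2 ⟨by omega, by omega⟩
    · exact h3 ⟨by omega, by omega⟩
    · exact h3 ⟨by omega, by omega⟩
    · exact h2 ⟨by omega, by omega⟩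
  have h2 := triangle_aux (s.image (fun i => (a i - 1) + (b i - 1) + 1)) (by
    intro x hx
    obtain ⟨i, _, rfl⟩ := mem_image.1 hx
    omega)
  rw [card_image_of_injOn hinj, sum_image hinj] at h2
  have h3 : ∑ i ∈ s, ((a i - 1) + (b i - 1) + 1) = DD a b s + s.card := by
    rw [sum_add_distrib, DD]
    simp
  rw [h3] at h2
  exact h2

theorem strip {x y a b : ι → ℕ} {s : Finset ι} {X Y h : ℕ} (H : Tiles x y a b s X Y 1 h) :
    (∀ i ∈ s, a i = 1) ∧ DD a b s + s.card = h := by
  have ha : ∀ i ∈ s, a i = 1 := by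
    intro i hi
    have h1 := H.sub i hi
    have h2 := H.pos i hi
    omega
  refine ⟨ha, ?_⟩
  have hcol := H.column X le_rfl (by omega)
  have hf : s.filter (fun i => x i ≤ X ∧ X < x i + a i) = s := by
    rw [filter_eq_self]
    intro i hi
    have h1 := H.sub i hi
    have h2 := H.pos i hi
    omega
  rw [hf] at hcol
  rw [← hcol, DD, card_eq_sum_ones, ← sum_add_distrib]
  refine sum_congr rfl (fun i hi => ?_)
  have h2 := H.pos i hi
  have h3 := ha i hi
  omega

/-- Sum of all side lengths. -/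
theorem sum_sides {a b : ι → ℕ} {s : Finset ι} (hpos : ∀ i ∈ s, 1 ≤ a i ∧ 1 ≤ b i) :
    ∑ i ∈ s, a i + ∑ i ∈ s, b i = DD a b s + 2 * s.card := by
  rw [DD, card_eq_sum_ones, mul_sum, ← sum_add_distrib, ← sum_add_distrib]
  refine sum_congr rfl (fun i hi => ?_)
  have := hpos i hi
  omega

theorem lemmaA_step {x y a b : ι → ℕ} {s : Finset ι} {X Y w h : ℕ}
    (IH : ∀ w' h', w' + h' < w + h → ∀ (s' : Finset ι) (X' Y' : ℕ),
      Tiles x y a b s' X' Y' w' h' → Dist a b s' → 2 ≤ w' → 2 ≤ h' → w' + h' ≤ DD a b s' + 2)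
    (H : Tiles x y a b s X Y w h) (hd : Dist a b s) (hw : 2 ≤ w) (hh : 2 ≤ h)
    (hcut : ¬ NoCut x a s X w) : w + h ≤ DD a b s + 2 := by
  obtain ⟨c, s₁, s₂, hc0, hcw, hun, hdis, ⟨X₁, H₁⟩, ⟨X₂, H₂⟩⟩ := H.split hcut
  have hd1 : Dist a b s₁ := hd.mono (by rw [← hun]; exact subset_union_left)
  have hd2 : Dist a b s₂ := hd.mono (by rw [← hun]; exact subset_union_right)
  have hDD : DD a b s = DD a b s₁ + DD a b s₂ := by rw [← hun, DD_union hdis]
  by_cases hc2 : 2 ≤ c
  · have e1 := IH c h (by omega) s₁ X₁ Y H₁ hd1 hc2 hh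
    have e2 := IH (w - c) h (by omega) s₂ X₂ Y H₂ hd2 (by omega) hh
    omega
  · have hc1 : c = 1 := by omega
    subst hc1
    obtain ⟨ha1, hs1⟩ := strip H₁
    have t1 := triangle H₁.pos (fun i hi => Or.inl (ha1 i hi)) hd1
    rw [hs1] at t1
    by_cases hw3 : 3 ≤ w
    · have e2 := IH (w - 1) h (by omega) s₂ X₂ Y H₂ hd2 (by omega) hh
      have : s₁.card < h := by
        by_contra hlt
        push Not at hlt
        have : h * (h + 1) ≤ s₁.card * (s₁.card + 1) := Nat.mul_le_mul hlt (by omega)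
        nlinarith
      omega
    · have hw2 : w = 2 := by omega
      subst hw2
      obtain ⟨ha2, hs2⟩ := strip H₂
      have t2 := triangle H.pos (fun i hi => Or.inl (by
        rw [← hun, mem_union] at hi
        rcases hi with hi | hi
        · exact ha1 i hi
        · exact ha2 i hi)) hd
      have hcard : s.card = s₁.card + s₂.card := by rw [← hun, card_union_of_disjoint hdis]
      have h5 : DD a b s + s.card = 2 * h := by omega
      rw [h5] at t2
      have : s.card ≤ h := by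
        by_contra hlt
        push Not at hlt
        have : (h + 1) * (h + 2) ≤ s.card * (s.card + 1) := Nat.mul_le_mul hlt (by omega)
        nlinarith
      omega

theorem lemmaA (N : ℕ) : ∀ (w h : ℕ), w + h = N → ∀ (x y a b : ι → ℕ) (s : Finset ι) (X Y : ℕ),
    Tiles x y a b s X Y w h → Dist a b s → 2 ≤ w → 2 ≤ h → w + h ≤ DD a b s + 2 := by
  induction N using Nat.strong_induction_on with
  | _ N IH =>
    intro w h hN x y a b s X Y H hd hw hh
    by_cases hV : NoCut x a s X w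
    · by_cases hH : NoCut y b s Y h
      · have e1 := noCut_sum H hV
        have e2 := noCut_sum H.swap hH
        have e3 : DD a b s = ∑ i ∈ s, (a i - 1) + ∑ i ∈ s, (b i - 1) := sum_add_distrib
        omega
      · have := lemmaA_step (x := y) (y := x) (a := b) (b := a) (w := h) (h := w)
          (fun w' h' hlt s' X' Y' H' hd' hw' hh' =>
            IH (w' + h') (by omega) w' h' rfl y x b a s' X' Y' H' hd' hw' hh')
          H.swap hd.swap hh hw hH
        rw [DD_swap] at this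
        omega
    · exact lemmaA_step (fun w' h' hlt s' X' Y' H' hd' hw' hh' =>
        IH (w' + h') (by omega) w' h' rfl x y a b s' X' Y' H' hd' hw' hh') H hd hw hh hV

/-- The second level: a rectangle `(n - 1) × n` next to a strip whose tiles form `u`. -/
theorem level2_step {x y a b : ι → ℕ} {s u : Finset ι} {X Y w h n : ℕ}
    (H : Tiles x y a b s X Y w h) (hu : Disjoint u s) (hd : Dist a b (u ∪ s))
    (hupos : ∀ i ∈ u, 1 ≤ a i ∧ 1 ≤ b i) (hu1 : ∀ i ∈ u, a i = 1 ∨ b i = 1)
    (hun : DD a b u + u.card ≤ n) (hwh : w + h + 1 = 2 * n) (hw : n ≤ w + 1) (hh : n ≤ h + 1)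
    (hn : 5 ≤ n) (hcut : ¬ NoCut x a s X w) : 2 * n + u.card ≤ DD a b s + 4 := by
  obtain ⟨c, s₁, s₂, hc0, hcw, hs, hdis, ⟨X₁, H₁⟩, ⟨X₂, H₂⟩⟩ := H.split hcut
  have hds : Dist a b s := hd.mono subset_union_right
  have hd1 : Dist a b s₁ := hds.mono (by rw [← hs]; exact subset_union_left)
  have hd2 : Dist a b s₂ := hds.mono (by rw [← hs]; exact subset_union_right)
  have hDD : DD a b s = DD a b s₁ + DD a b s₂ := by rw [← hs, DD_union hdis]
  have tu := triangle hupos hu1 (hd.mono subset_union_left)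
  by_cases hc2 : 2 ≤ c
  · have e1 := lemmaA _ c h rfl x y a b s₁ X₁ Y H₁ hd1 hc2 (by omega)
    have e2 := lemmaA _ (w - c) h rfl x y a b s₂ X₂ Y H₂ hd2 (by omega) (by omega)
    have : u.card + 2 ≤ n := by
      by_contra hlt
      push Not at hlt
      have : (n - 1) * n ≤ u.card * (u.card + 1) := Nat.mul_le_mul (by omega) (by omega)
      obtain ⟨k, rfl⟩ : ∃ k, n = k + 1 := ⟨n - 1, by omega⟩
      rw [Nat.add_sub_cancel] at this
      nlinarith
    omega
  · have hc1 : c = 1 := by omega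
    subst hc1
    obtain ⟨ha1, hs1⟩ := strip H₁
    have e2 := lemmaA _ (w - 1) h rfl x y a b s₂ X₂ Y H₂ hd2 (by omega) (by omega)
    have hdis1 : Disjoint u s₁ := hu.mono_right (by rw [← hs]; exact subset_union_left)
    have t := triangle (a := a) (b := b) (s := u ∪ s₁) (by
      intro i hi
      rcases mem_union.1 hi with hi | hi
      · exact hupos i hi
      · exact H₁.pos i hi) (by
      intro i hi
      rcases mem_union.1 hi with hi | hi
      · exact hu1 i hi
      · exact Or.inl (ha1 i hi)) (hd.mono (union_subset_union_right (by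
        rw [← hs]; exact subset_union_left)))
    rw [DD_union hdis1, card_union_of_disjoint hdis1] at t
    have : u.card + s₁.card ≤ n - 1 := by
      by_contra hlt
      push Not at hlt
      have : n * (n + 1) ≤ (u.card + s₁.card) * (u.card + s₁.card + 1) :=
        Nat.mul_le_mul (by omega) (by omega)
      have h6 : n * (n + 1) ≤ 4 * n := by omega
      nlinarith
    omega

theorem level2 {x y a b : ι → ℕ} {s u : Finset ι} {X Y w h n m : ℕ}
    (H : Tiles x y a b s X Y w h) (hu : Disjoint u s) (hd : Dist a b (u ∪ s))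
    (hupos : ∀ i ∈ u, 1 ≤ a i ∧ 1 ≤ b i) (hu1 : ∀ i ∈ u, a i = 1 ∨ b i = 1)
    (hun : DD a b u + u.card ≤ n) (hwh : w + h + 1 = 2 * n) (hw : n ≤ w + 1) (hh : n ≤ h + 1)
    (hn : 5 ≤ n) (hs2 : 2 ≤ s.card) (hm : u.card + s.card = m) (hmn : m ≤ n + 1) :
    2 * n + u.card ≤ DD a b s + 4 := by
  by_cases hV : NoCut x a s X w
  · by_cases hH : NoCut y b s Y h
    · have e1 := H.two_le (by omega) hV hs2
      have e2 := H.swap.two_le (by omega) hH hs2
      have e3 := sum_sides H.pos
      omega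
    · have := level2_step (x := y) (y := x) (a := b) (b := a) (w := h) (h := w) (n := n)
        H.swap hu hd.swap (fun i hi => ⟨(hupos i hi).2, (hupos i hi).1⟩)
        (fun i hi => (hu1 i hi).symm) (by rw [DD_swap]; exact hun) (by omega) hh hw hn hH
      rw [DD_swap] at this
      exact this
  · exact level2_step H hu hd hupos hu1 hun hwh hw hh hn hV

theorem square_step {x y a b : ι → ℕ} {s : Finset ι} {X Y n m : ℕ}
    (H : Tiles x y a b s X Y n n) (hd : Dist a b s) (hm : s.card = m)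
    (hn : 5 ≤ n) (hmn : m ≤ n + 1) (h2 : 2 * n < (m - 1) * m)
    (hcut : ¬ NoCut x a s X n) : 3 * n ≤ DD a b s + 4 := by
  obtain ⟨c, s₁, s₂, hc0, hcw, hs, hdis, ⟨X₁, H₁⟩, ⟨X₂, H₂⟩⟩ := H.split hcut
  have hd1 : Dist a b s₁ := hd.mono (by rw [← hs]; exact subset_union_left)
  have hd2 : Dist a b s₂ := hd.mono (by rw [← hs]; exact subset_union_right)
  have hDD : DD a b s = DD a b s₁ + DD a b s₂ := by rw [← hs, DD_union hdis]
  have hcard : s₁.card + s₂.card = m := by rw [← hm, ← hs, card_union_of_disjoint hdis]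
  by_cases hc2 : 2 ≤ c
  · have e1 := lemmaA _ c n rfl x y a b s₁ X₁ Y H₁ hd1 hc2 (by omega)
    have e2 := lemmaA _ (n - c) n rfl x y a b s₂ X₂ Y H₂ hd2 (by omega) (by omega)
    omega
  · have hc1 : c = 1 := by omega
    subst hc1
    obtain ⟨ha1, hs1⟩ := strip H₁
    have t1 := triangle H₁.pos (fun i hi => Or.inl (ha1 i hi)) hd1
    rw [hs1] at t1
    have hne := card_pos.2 (H₂.nonempty (by omega) (by omega))
    by_cases hs2 : 2 ≤ s₂.card
    · have := level2 (n := n) (m := m) H₂ hdis (by rw [hs]; exact hd) H₁.pos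
        (fun i hi => Or.inl (ha1 i hi)) hs1.le (by omega) (by omega) (by omega) hn hs2 hcard hmn
      omega
    · exfalso
      have h3 : s₁.card = m - 1 := by omega
      rw [h3] at t1
      have h4 : m - 1 + 1 = m := by omega
      rw [h4] at t1
      omega

/-- The lower bound for the square. -/
theorem square_lower {x y a b : ι → ℕ} {s : Finset ι} {X Y n m : ℕ}
    (H : Tiles x y a b s X Y n n) (hd : Dist a b s) (hm : s.card = m) (hm7 : 7 ≤ m)
    (h1 : (m - 2) * (m - 1) ≤ 2 * n) (h2 : 2 * n < (m - 1) * m) :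
    3 * n ≤ DD a b s + 4 := by
  have hn : 2 * m ≤ n + 4 := by
    obtain ⟨k, rfl⟩ : ∃ k, m = k + 7 := ⟨m - 7, by omega⟩
    have e1 : k + 7 - 2 = k + 5 := by omega
    have e2 : k + 7 - 1 = k + 6 := by omega
    rw [e1, e2] at h1
    nlinarith
  by_cases hV : NoCut x a s X n
  · by_cases hH : NoCut y b s Y n
    · have e1 := H.two_le (by omega) hV (by omega)
      have e2 := H.swap.two_le (by omega) hH (by omega)
      have e3 := sum_sides H.pos
      omega
    · have := square_step (x := y) (y := x) (a := b) (b := a) H.swap hd.swap hm (by omega)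
        (by omega) h2 hH
      rw [DD_swap] at this
      exact this
  · exact square_step H hd hm (by omega) (by omega) h2 hV

end lower

/-! ## The geometric definitions -/

/-- A tiling of the square `[0, n]²` by `m` closed axis-parallel rectangles
`[x i, x i + a i] × [y i, y i + b i]` with integer side lengths `a i, b i ≥ 1` and pairwise
disjoint interiors. The positions are real numbers. -/
structure Tiling (n m : ℕ) where
  x : Fin m → ℝ
  y : Fin m → ℝ
  a : Fin m → ℕ
  b : Fin m → ℕ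
  a_pos : ∀ i, 1 ≤ a i
  b_pos : ∀ i, 1 ≤ b i
  cover : (⋃ i, Set.Icc (x i) (x i + a i) ×ˢ Set.Icc (y i) (y i + b i)) =
    Set.Icc (0 : ℝ) n ×ˢ Set.Icc (0 : ℝ) n
  disj : ∀ i j, i ≠ j →
    Disjoint (interior (Set.Icc (x i) (x i + a i) ×ˢ Set.Icc (y i) (y i + b i)))
      (interior (Set.Icc (x j) (x j + a j) ×ˢ Set.Icc (y j) (y j + b j)))

/-- The unordered pairs `{a i, b i}` are pairwise distinct. -/
def Tiling.Admissible {n m : ℕ} (T : Tiling n m) : Prop :=
  ∀ i j, i ≠ j → s(T.a i, T.b i) ≠ s(T.a j, T.b j)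

/-- The internal wall length `Σ (a i + b i) - 2 n`. -/
def Tiling.wall {n m : ℕ} (T : Tiling n m) : ℤ :=
  ∑ i, ((T.a i : ℤ) + T.b i) - 2 * n

/-- Triangular numbers. -/
def Tri (j : ℕ) : ℕ := j * (j + 1) / 2

section geometry

variable {m : ℕ}

theorem sep_of_disj {x y x' y' : ℝ} {a b a' b' : ℕ} (ha : 1 ≤ a) (hb : 1 ≤ b) (ha' : 1 ≤ a')
    (hb' : 1 ≤ b')
    (h : Disjoint (interior (Set.Icc x (x + a) ×ˢ Set.Icc y (y + b)))
      (interior (Set.Icc x' (x' + a') ×ˢ Set.Icc y' (y' + b')))) :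
    x + a ≤ x' ∨ x' + a' ≤ x ∨ y + b ≤ y' ∨ y' + b' ≤ y := by
  have ha2 : (1 : ℝ) ≤ a := by exact_mod_cast ha
  have hb2 : (1 : ℝ) ≤ b := by exact_mod_cast hb
  have ha2' : (1 : ℝ) ≤ a' := by exact_mod_cast ha'
  have hb2' : (1 : ℝ) ≤ b' := by exact_mod_cast hb'
  rw [interior_prod_eq, interior_prod_eq, interior_Icc, interior_Icc, interior_Icc, interior_Icc,
    Set.disjoint_prod, Set.Ioo_disjoint_Ioo, Set.Ioo_disjoint_Ioo] at h
  rcases h with h | h
  · rcases min_le_iff.1 h with h1 | h1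
    · rcases le_max_iff.1 h1 with h2 | h2
      · linarith
      · exact Or.inl h2
    · rcases le_max_iff.1 h1 with h2 | h2
      · exact Or.inr (Or.inl h2)
      · linarith
  · rcases min_le_iff.1 h with h1 | h1
    · rcases le_max_iff.1 h1 with h2 | h2
      · linarith
      · exact Or.inr (Or.inr (Or.inl h2))
    · rcases le_max_iff.1 h1 with h2 | h2
      · exact Or.inr (Or.inr (Or.inr h2))
      · linarith

/-- The positions of the tiles are integers. -/
theorem integral {n : ℕ} {x y : Fin m → ℝ} {a b : Fin m → ℕ} (ha : ∀ i, 1 ≤ a i)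
    (hb : ∀ i, 1 ≤ b i)
    (hsub : ∀ i, 0 ≤ x i ∧ x i + a i ≤ n ∧ 0 ≤ y i ∧ y i + b i ≤ n)
    (hcov : ∀ u v : ℝ, 0 ≤ u → u ≤ n → 0 ≤ v → v ≤ n →
      ∃ i, x i ≤ u ∧ u ≤ x i + a i ∧ y i ≤ v ∧ v ≤ y i + b i)
    (hsep : ∀ i j, i ≠ j → x i + a i ≤ x j ∨ x j + a j ≤ x i ∨ y i + b i ≤ y j ∨
      y j + b j ≤ y i) :
    ∀ i, ∃ k : ℕ, x i = k := by
  by_contra hcon
  push Not at hcon
  obtain ⟨i₀, hi₀⟩ := hcon
  obtain ⟨i, hi, hmin⟩ := Set.exists_min_image {i | ∀ k : ℕ, x i ≠ k} x (Set.toFinite _) ⟨i₀, hi₀⟩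
  have hpos : 0 < x i := lt_of_le_of_ne (hsub i).1 (fun h => hi 0 (by simpa using h.symm))
  have hbi : (1 : ℝ) ≤ b i := by exact_mod_cast hb i
  have hai : (1 : ℝ) ≤ a i := by exact_mod_cast ha i
  -- a point slightly to the left
  have hev : ∀ᶠ t in nhdsWithin (x i) (Set.Iio (x i)),
      (∀ j, x j + a j < x i → x j + a j < t) ∧ 0 < t ∧ t < x i := by
    refine (Filter.eventually_all.2 (fun j => ?_)).and (Filter.Eventually.and ?_ ?_)
    · by_cases hj : x j + a j < x i
      · have := (eventually_gt_nhds hj)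
        exact (this.filter_mono nhdsWithin_le_nhds).mono (fun t ht _ => ht)
      · exact Filter.Eventually.of_forall (fun t h => absurd h hj)
    · exact (eventually_gt_nhds hpos).filter_mono nhdsWithin_le_nhds
    · exact self_mem_nhdsWithin
  obtain ⟨t, ht1, ht2, ht3⟩ := hev.exists
  obtain ⟨j, hj1, hj2, hj3, hj4⟩ := hcov t (y i + 1 / 2) ht2.le
    (by have := (hsub i).2.1; linarith) (by have := (hsub i).2.2.1; linarith)
    (by have := (hsub i).2.2.2; linarith)
  have hxj : x j < x i := by linarith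
  have hne : i ≠ j := by rintro rfl; exact lt_irrefl _ hxj
  have hge : x i ≤ x j + a j := by
    by_contra hlt
    push Not at hlt
    linarith [ht1 j hlt]
  have heq : x j + a j = x i := by
    rcases hsep i j hne with h | h | h | h
    · linarith
    · exact le_antisymm h hge
    · linarith
    · linarith
  have hjS : ¬ (∀ k : ℕ, x j ≠ k) := fun h => absurd (hmin j h) (by linarith)
  push Not at hjS
  obtain ⟨k, hk⟩ := hjS
  exact hi (k + a j) (by rw [← heq, hk]; push_cast; ring)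

/-- A geometric tiling gives a combinatorial one. -/
theorem Tiling.toTiles {n m : ℕ} (T : Tiling n m) :
    ∃ X Y : Fin m → ℕ, Tiles X Y T.a T.b Finset.univ 0 0 n n := by
  have hsub : ∀ i, 0 ≤ T.x i ∧ T.x i + T.a i ≤ n ∧ 0 ≤ T.y i ∧ T.y i + T.b i ≤ n := by
    intro i
    have h1 : (T.x i, T.y i) ∈ Set.Icc (0 : ℝ) n ×ˢ Set.Icc (0 : ℝ) n := by
      rw [← T.cover]
      refine Set.mem_iUnion.2 ⟨i, ?_⟩
      simp
    have h2 : (T.x i + T.a i, T.y i + T.b i) ∈ Set.Icc (0 : ℝ) n ×ˢ Set.Icc (0 : ℝ) n := by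
      rw [← T.cover]
      refine Set.mem_iUnion.2 ⟨i, ?_⟩
      simp
    simp only [Set.mem_prod, Set.mem_Icc] at h1 h2
    exact ⟨h1.1.1, h2.1.2, h1.2.1, h2.2.2⟩
  have hcov : ∀ u v : ℝ, 0 ≤ u → u ≤ n → 0 ≤ v → v ≤ n →
      ∃ i, T.x i ≤ u ∧ u ≤ T.x i + T.a i ∧ T.y i ≤ v ∧ v ≤ T.y i + T.b i := by
    intro u v h1 h2 h3 h4
    have h5 : (u, v) ∈ ⋃ i, Set.Icc (T.x i) (T.x i + T.a i) ×ˢ Set.Icc (T.y i) (T.y i + T.b i) := by
      rw [T.cover]
      exact ⟨⟨h1, h2⟩, ⟨h3, h4⟩⟩
    obtain ⟨i, hi⟩ := Set.mem_iUnion.1 h5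
    simp only [Set.mem_prod, Set.mem_Icc] at hi
    exact ⟨i, hi.1.1, hi.1.2, hi.2.1, hi.2.2⟩
  have hsep : ∀ i j, i ≠ j → T.x i + T.a i ≤ T.x j ∨ T.x j + T.a j ≤ T.x i ∨
      T.y i + T.b i ≤ T.y j ∨ T.y j + T.b j ≤ T.y i := fun i j hij =>
    sep_of_disj (T.a_pos i) (T.b_pos i) (T.a_pos j) (T.b_pos j) (T.disj i j hij)
  choose X hX using integral T.a_pos T.b_pos hsub hcov hsep
  choose Y hY using integral T.b_pos T.a_pos
    (fun i => ⟨(hsub i).2.2.1, (hsub i).2.2.2, (hsub i).1, (hsub i).2.1⟩)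
    (fun u v h1 h2 h3 h4 => by
      obtain ⟨i, e1, e2, e3, e4⟩ := hcov v u h3 h4 h1 h2
      exact ⟨i, e3, e4, e1, e2⟩)
    (fun i j hij => by
      rcases hsep i j hij with h | h | h | h
      · exact Or.inr (Or.inr (Or.inl h))
      · exact Or.inr (Or.inr (Or.inr h))
      · exact Or.inl h
      · exact Or.inr (Or.inl h))
  refine ⟨X, Y, fun i _ => ⟨T.a_pos i, T.b_pos i⟩, fun i _ => ?_, fun p q h1 h2 h3 h4 => ?_,
    fun i _ j _ p q h1 h2 => ?_⟩
  · obtain ⟨e1, e2, e3, e4⟩ := hsub i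
    rw [hX] at e2
    rw [hY] at e4
    have e2' : X i + T.a i ≤ n := by exact_mod_cast e2
    have e4' : Y i + T.b i ≤ n := by exact_mod_cast e4
    omega
  · have hp : (p : ℝ) + 1 ≤ n := by
      have : p + 1 ≤ n := by omega
      exact_mod_cast this
    have hq : (q : ℝ) + 1 ≤ n := by
      have : q + 1 ≤ n := by omega
      exact_mod_cast this
    obtain ⟨i, e1, e2, e3, e4⟩ := hcov (p + 1 / 2) (q + 1 / 2) (by positivity) (by linarith)
      (by positivity) (by linarith)
    rw [hX] at e1 e2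
    rw [hY] at e3 e4
    refine ⟨i, Finset.mem_univ i, ?_, ?_, ?_, ?_⟩
    · have : (X i : ℝ) < (p + 1 : ℕ) := by push_cast; linarith
      have : X i < p + 1 := by exact_mod_cast this
      omega
    · have : (p : ℝ) < (X i + T.a i : ℕ) := by push_cast; linarith
      exact_mod_cast this
    · have : (Y i : ℝ) < (q + 1 : ℕ) := by push_cast; linarith
      have : Y i < q + 1 := by exact_mod_cast this
      omega
    · have : (q : ℝ) < (Y i + T.b i : ℕ) := by push_cast; linarith
      exact_mod_cast this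
  · by_contra hij
    obtain ⟨a1, a2, a3, a4⟩ := h1
    obtain ⟨b1, b2, b3, b4⟩ := h2
    rcases hsep i j hij with h | h | h | h
    · rw [hX, hX] at h
      have : X i + T.a i ≤ X j := by exact_mod_cast h
      omega
    · rw [hX, hX] at h
      have : X j + T.a j ≤ X i := by exact_mod_cast h
      omega
    · rw [hY, hY] at h
      have : Y i + T.b i ≤ Y j := by exact_mod_cast h
      omega
    · rw [hY, hY] at h
      have : Y j + T.b j ≤ Y i := by exact_mod_cast h
      omega

theorem cell_of_real {n : ℕ} (hn : 0 < n) {u : ℝ} (h0 : 0 ≤ u) (h1 : u ≤ n) :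
    ∃ p : ℕ, p < n ∧ (p : ℝ) ≤ u ∧ u ≤ p + 1 := by
  by_cases h : ⌊u⌋₊ < n
  · exact ⟨⌊u⌋₊, h, Nat.floor_le h0, (Nat.lt_floor_add_one u).le⟩
  · push Not at h
    have h2 : (n : ℝ) ≤ u := (Nat.le_floor_iff h0).1 h
    refine ⟨n - 1, by omega, ?_, ?_⟩
    · rw [Nat.cast_sub (by omega)]
      push_cast
      linarith
    · rw [Nat.cast_sub (by omega)]
      push_cast
      linarith

/-- A combinatorial tiling gives a geometric one. -/
def ofTiles {n m : ℕ} (hn : 0 < n) (X Y a b : Fin m → ℕ)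
    (H : Tiles X Y a b Finset.univ 0 0 n n) : Tiling n m where
  x i := X i
  y i := Y i
  a := a
  b := b
  a_pos i := (H.pos i (Finset.mem_univ i)).1
  b_pos i := (H.pos i (Finset.mem_univ i)).2
  cover := by
    ext ⟨u, v⟩
    simp only [Set.mem_iUnion, Set.mem_prod, Set.mem_Icc]
    constructor
    · rintro ⟨i, ⟨h1, h2⟩, h3, h4⟩
      obtain ⟨e1, e2, e3, e4⟩ := H.sub i (Finset.mem_univ i)
      have f1 : (X i : ℝ) + a i ≤ n := by
        have : X i + a i ≤ n := by omega
        exact_mod_cast this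
      have f2 : (Y i : ℝ) + b i ≤ n := by
        have : Y i + b i ≤ n := by omega
        exact_mod_cast this
      have f3 : (0 : ℝ) ≤ X i := by positivity
      have f4 : (0 : ℝ) ≤ Y i := by positivity
      exact ⟨⟨by linarith, by linarith⟩, by linarith, by linarith⟩
    · rintro ⟨⟨h1, h2⟩, h3, h4⟩
      obtain ⟨p, hp1, hp2, hp3⟩ := cell_of_real hn h1 h2
      obtain ⟨q, hq1, hq2, hq3⟩ := cell_of_real hn h3 h4
      obtain ⟨i, _, e1, e2, e3, e4⟩ := H.ex p q (by omega) (by omega) (by omega) (by omega)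
      have f1 : (X i : ℝ) ≤ p := by exact_mod_cast e1
      have f2 : (p : ℝ) + 1 ≤ X i + a i := by exact_mod_cast e2
      have f3 : (Y i : ℝ) ≤ q := by exact_mod_cast e3
      have f4 : (q : ℝ) + 1 ≤ Y i + b i := by exact_mod_cast e4
      exact ⟨i, ⟨by linarith, by linarith⟩, by linarith, by linarith⟩
  disj := by
    intro i j hij
    rw [interior_prod_eq, interior_prod_eq, interior_Icc, interior_Icc, interior_Icc,
      interior_Icc, Set.disjoint_left]
    rintro ⟨u, v⟩ h1 h2
    simp only [Set.mem_prod, Set.mem_Ioo] at h1 h2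
    obtain ⟨⟨a1, a2⟩, a3, a4⟩ := h1
    obtain ⟨⟨b1, b2⟩, b3, b4⟩ := h2
    have g1 : X i < X j + a j := by
      have : (X i : ℝ) < (X j + a j : ℕ) := by push_cast; linarith
      exact_mod_cast this
    have g2 : X j < X i + a i := by
      have : (X j : ℝ) < (X i + a i : ℕ) := by push_cast; linarith
      exact_mod_cast this
    have g3 : Y i < Y j + b j := by
      have : (Y i : ℝ) < (Y j + b j : ℕ) := by push_cast; linarith
      exact_mod_cast this
    have g4 : Y j < Y i + b i := by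
      have : (Y j : ℝ) < (Y i + b i : ℕ) := by push_cast; linarith
      exact_mod_cast this
    have p1 := H.pos i (Finset.mem_univ i)
    have p2 := H.pos j (Finset.mem_univ j)
    exact hij (H.un i (Finset.mem_univ i) j (Finset.mem_univ j) (max (X i) (X j))
      (max (Y i) (Y j)) ⟨by omega, by omega, by omega, by omega⟩
      ⟨by omega, by omega, by omega, by omega⟩)

end geometry

/-! ## The construction -/

section construction

/-- Height at which the `k`-th long tile of the strip starts. -/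
def yp (k : ℕ) : ℕ := 3 + ∑ j ∈ Finset.range k, (j + 2)

theorem yp_succ (k : ℕ) : yp (k + 1) = yp k + (k + 2) := by
  rw [yp, yp, Finset.sum_range_succ]
  omega

theorem yp_mono {k l : ℕ} (h : k ≤ l) : yp k ≤ yp l := by
  induction h with
  | refl => exact le_rfl
  | step _ ih => rw [yp_succ]; omega

theorem two_yp (k : ℕ) : 2 * yp k = 6 + k * (k + 3) := by
  induction k with
  | zero => simp [yp]
  | succ k ih => rw [yp_succ, mul_add, ih]; ring

theorem yp_find (K q : ℕ) (h1 : 3 ≤ q) (h2 : q < yp K) : ∃ k < K, yp k ≤ q ∧ q < yp (k + 1) := by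
  induction K with
  | zero =>
    simp [yp] at h2
    omega
  | succ K ih =>
    by_cases h : q < yp K
    · obtain ⟨k, hk, h3⟩ := ih h
      exact ⟨k, by omega, h3⟩
    · exact ⟨K, by omega, by omega, h2⟩

/-- Width of the `k`-th long tile of the strip. -/
def wd (n r k : ℕ) : ℕ := if k = r then n - yp k else k + 2

def cx (i : ℕ) : ℕ := if i = 0 then 2 else if i = 1 then 0 else if i = 2 then 1 else if i = 3 then 1 else 0
def cy (i : ℕ) : ℕ := if i = 0 then 0 else if i = 1 then 0 else if i = 2 then 0 else if i = 3 then 1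
  else yp (i - 4)
def ca (n i : ℕ) : ℕ := if i = 0 then n - 2 else if i = 1 then 1 else if i = 2 then 1
  else if i = 3 then 1 else 2
def cb (n r i : ℕ) : ℕ := if i = 0 then n else if i = 1 then 3 else if i = 2 then 1
  else if i = 3 then 2 else wd n r (i - 4)

theorem idx_cases (i : ℕ) : i = 0 ∨ i = 1 ∨ i = 2 ∨ i = 3 ∨ ∃ k, i = k + 4 := by
  rcases Nat.lt_or_ge i 4 with h | h
  · omega
  · exact Or.inr (Or.inr (Or.inr (Or.inr ⟨i - 4, by omega⟩)))

@[simp] theorem cx0 : cx 0 = 2 := rfl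
@[simp] theorem cx1 : cx 1 = 0 := rfl
@[simp] theorem cx2 : cx 2 = 1 := rfl
@[simp] theorem cx3 : cx 3 = 1 := rfl
@[simp] theorem cx4 (k : ℕ) : cx (k + 4) = 0 := by simp [cx]
@[simp] theorem cy0 : cy 0 = 0 := rfl
@[simp] theorem cy1 : cy 1 = 0 := rfl
@[simp] theorem cy2 : cy 2 = 0 := rfl
@[simp] theorem cy3 : cy 3 = 1 := rfl
@[simp] theorem cy4 (k : ℕ) : cy (k + 4) = yp k := by simp [cy]
@[simp] theorem ca0 (n : ℕ) : ca n 0 = n - 2 := rfl
@[simp] theorem ca1 (n : ℕ) : ca n 1 = 1 := rfl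
@[simp] theorem ca2 (n : ℕ) : ca n 2 = 1 := rfl
@[simp] theorem ca3 (n : ℕ) : ca n 3 = 1 := rfl
@[simp] theorem ca4 (n k : ℕ) : ca n (k + 4) = 2 := by simp [ca]
@[simp] theorem cb0 (n r : ℕ) : cb n r 0 = n := rfl
@[simp] theorem cb1 (n r : ℕ) : cb n r 1 = 3 := rfl
@[simp] theorem cb2 (n r : ℕ) : cb n r 2 = 1 := rfl
@[simp] theorem cb3 (n r : ℕ) : cb n r 3 = 2 := rfl
@[simp] theorem cb4 (n r k : ℕ) : cb n r (k + 4) = wd n r k := by simp [cb]

theorem wd_lt {n r k : ℕ} (h : k < r) : wd n r k = k + 2 := by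
  rw [wd, if_neg (by omega)]

theorem wd_self {n r : ℕ} : wd n r r = n - yp r := by rw [wd, if_pos rfl]

theorem construct {n r : ℕ} (hr : 1 ≤ r) (hn : yp r + (r + 2) ≤ n) :
    Tiles (fun i : Fin (r + 5) => cx i) (fun i => cy i) (fun i => ca n i) (fun i => cb n r i)
      Finset.univ 0 0 n n := by
  have hyp3 : ∀ k, 3 ≤ yp k := fun k => by rw [yp]; omega
  have hwd : ∀ k, k ≤ r → yp k + wd n r k ≤ n ∧ k + 2 ≤ wd n r k := by
    intro k hk
    rcases Nat.lt_or_ge k r with h | h
    · rw [wd_lt h]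
      have := yp_mono (show k + 1 ≤ r from h)
      rw [yp_succ] at this
      omega
    · have : k = r := by omega
      subst this
      rw [wd_self]
      omega
  refine ⟨?_, ?_, ?_, ?_⟩
  · rintro ⟨i, hi⟩ -
    rcases idx_cases i with rfl | rfl | rfl | rfl | ⟨k, rfl⟩
    · simp; have := hyp3 r; omega
    · simp
    · simp
    · simp
    · simp only [ca4, cb4]
      have := hwd k (by omega)
      omega
  · rintro ⟨i, hi⟩ -
    have h3 := hyp3 r
    rcases idx_cases i with rfl | rfl | rfl | rfl | ⟨k, rfl⟩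
    · simp only [cx0, cy0, ca0, cb0]; omega
    · simp only [cx1, cy1, ca1, cb1]; omega
    · simp only [cx2, cy2, ca2, cb2]; omega
    · simp only [cx3, cy3, ca3, cb3]; omega
    · simp only [cx4, cy4, ca4, cb4]
      have := hwd k (by omega)
      omega
  · intro p q _ hp _ hq
    have h3 := hyp3 r
    by_cases hp2 : 2 ≤ p
    · refine ⟨⟨0, by omega⟩, Finset.mem_univ _, ?_⟩
      simp only [InTile, cx0, cy0, ca0, cb0]
      omega
    · by_cases hq3 : q < 3
      · by_cases hp0 : p = 0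
        · refine ⟨⟨1, by omega⟩, Finset.mem_univ _, ?_⟩
          simp only [InTile, cx1, cy1, ca1, cb1]
          omega
        · by_cases hq0 : q = 0
          · refine ⟨⟨2, by omega⟩, Finset.mem_univ _, ?_⟩
            simp only [InTile, cx2, cy2, ca2, cb2]
            omega
          · refine ⟨⟨3, by omega⟩, Finset.mem_univ _, ?_⟩
            simp only [InTile, cx3, cy3, ca3, cb3]
            omega
      · by_cases hqr : q < yp r
        · obtain ⟨k, hk, h4, h5⟩ := yp_find r q (by omega) hqr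
          rw [yp_succ] at h5
          refine ⟨⟨k + 4, by omega⟩, Finset.mem_univ _, ?_⟩
          simp only [InTile, cx4, cy4, ca4, cb4]
          rw [wd_lt hk]
          omega
        · refine ⟨⟨r + 4, by omega⟩, Finset.mem_univ _, ?_⟩
          simp only [InTile, cx4, cy4, ca4, cb4]
          rw [wd_self]
          omega
  · have key : ∀ k l, k < l → l ≤ r → yp k + wd n r k ≤ yp l := by
      intro k l hkl hl
      rw [wd_lt (by omega), ← yp_succ]
      exact yp_mono hkl
    rintro ⟨i, hi⟩ - ⟨j, hj⟩ - p q h1 h2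
    simp only [InTile] at h1 h2
    rw [Fin.mk.injEq]
    rcases idx_cases i with rfl | rfl | rfl | rfl | ⟨k, rfl⟩ <;>
      rcases idx_cases j with rfl | rfl | rfl | rfl | ⟨l, rfl⟩ <;>
      simp only [cx0, cy0, ca0, cb0, cx1, cy1, ca1, cb1, cx2, cy2, ca2, cb2, cx3, cy3, ca3, cb3,
        cx4, cy4, ca4, cb4] at h1 h2 <;>
      first
        | omega
        | (have := hyp3 k; omega)
        | (have := hyp3 l; omega)
        | (rcases lt_trichotomy k l with h | h | h
           · have := key k l h (by omega)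
             omega
           · omega
           · have := key l k h (by omega)
             omega)

theorem construct_dist {n r : ℕ} (hr : 1 ≤ r) (hn : yp r + (r + 2) ≤ n) (i j : Fin (r + 5))
    (hij : i ≠ j) : s(ca n i, cb n r i) ≠ s(ca n j, cb n r j) := by
  have hyp3 : ∀ k, 3 ≤ yp k := fun k => by rw [yp]; omega
  have h3 := hyp3 r
  have hwd : ∀ k, k ≤ r → k + 2 ≤ wd n r k := by
    intro k hk
    rcases Nat.lt_or_ge k r with h | h
    · rw [wd_lt h]
    · have : k = r := by omega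
      subst this
      rw [wd_self]
      omega
  have hwlt : ∀ k l, k < l → l ≤ r → wd n r k < wd n r l := by
    intro k l hkl hl
    rw [wd_lt (by omega)]
    have := hwd l hl
    omega
  obtain ⟨i, hi⟩ := i
  obtain ⟨j, hj⟩ := j
  rw [Ne, Fin.mk.injEq] at hij
  rw [Ne, Sym2.eq_iff]
  have e4 : 4 ≤ yp r := by
    have := yp_mono hr
    have e1 : yp 1 = 5 := by simp [yp]
    omega
  rcases idx_cases i with rfl | rfl | rfl | rfl | ⟨k, rfl⟩ <;>
    rcases idx_cases j with rfl | rfl | rfl | rfl | ⟨l, rfl⟩ <;>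
    simp only [cx0, cy0, ca0, cb0, cx1, cy1, ca1, cb1, cx2, cy2, ca2, cb2, cx3, cy3, ca3, cb3,
      cx4, cy4, ca4, cb4] <;>
    first
      | omega
      | (have := hwd k (by omega); omega)
      | (have := hwd l (by omega); omega)
      | (rcases lt_trichotomy k l with h | h | h
         · have := hwlt k l h (by omega)
           omega
         · omega
         · have := hwlt l k h (by omega)
           omega)

theorem construct_sum {n r : ℕ} (hn : yp r + (r + 2) ≤ n) :
    ∑ i : Fin (r + 5), ((ca n i : ℤ) + cb n r i) = 3 * n - 4 + 2 * (r + 5) := by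
  rw [Finset.sum_range (fun i => ((ca n i : ℤ) + cb n r i)) |>.symm]
  rw [show r + 5 = (r + 1) + 1 + 1 + 1 + 1 by omega, Finset.sum_range_succ', Finset.sum_range_succ',
    Finset.sum_range_succ', Finset.sum_range_succ', Finset.sum_range_succ]
  have h1 : ∀ k : ℕ, k + 1 + 1 + 1 + 1 = k + 4 := fun k => by omega
  simp only [h1]
  have h2 : ∑ k ∈ Finset.range r, ((ca n (k + 4) : ℤ) + cb n r (k + 4)) =
      2 * r + (yp r - 3 : ℤ) := by
    have h3 : ∀ k ∈ Finset.range r, ((ca n (k + 4) : ℤ) + cb n r (k + 4)) = 2 + ((k + 2 : ℕ) : ℤ) := by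
      intro k hk
      rw [Finset.mem_range] at hk
      rw [ca4, cb4, wd_lt hk]
      rfl
    rw [Finset.sum_congr rfl h3, Finset.sum_add_distrib, yp]
    push_cast
    simp
    ring
  rw [h2]
  simp only [zero_add, Nat.reduceAdd, ca4, cb4, wd_self, ca3, cb3, ca2, cb2, ca1, cb1, ca0, cb0]
  have hyp3 : 3 ≤ yp r := by rw [yp]; omega
  rw [Nat.cast_sub (show yp r ≤ n by omega), Nat.cast_sub (show 2 ≤ n by omega)]
  push_cast
  ring

end construction

/-- In the middle regime `T_{m-2} ≤ n < T_{m-1}`, `m ≥ 7`, an admissible tiling exists and the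
minimal internal wall length is `n + 2 (m - 2)`. -/
theorem result (m n : ℕ) (hm : 7 ≤ m) (h1 : Tri (m - 2) ≤ n) (h2 : n < Tri (m - 1)) :
    IsLeast {W : ℤ | ∃ T : Tiling n m, T.Admissible ∧ T.wall = W} ((n : ℤ) + 2 * ((m : ℤ) - 2)) := by
  obtain ⟨r, rfl⟩ : ∃ r, m = r + 5 := ⟨m - 5, by omega⟩
  have hr : 2 ≤ r := by omega
  have e1 : (r + 5 - 2) * (r + 5 - 1) ≤ 2 * n := by
    rw [Tri] at h1
    have h3 : (r + 5 - 2) * (r + 5 - 2 + 1) / 2 * 2 = (r + 5 - 2) * (r + 5 - 2 + 1) :=
      Nat.div_mul_cancel (Nat.even_mul_succ_self _).two_dvd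
    have h4 : r + 5 - 2 + 1 = r + 5 - 1 := by omega
    rw [h4] at h3 h1
    omega
  have e2 : 2 * n < (r + 5 - 1) * (r + 5) := by
    rw [Tri] at h2
    have h3 : (r + 5 - 1) * (r + 5 - 1 + 1) / 2 * 2 = (r + 5 - 1) * (r + 5 - 1 + 1) :=
      Nat.div_mul_cancel (Nat.even_mul_succ_self _).two_dvd
    have h4 : r + 5 - 1 + 1 = r + 5 := by omega
    rw [h4] at h3 h2
    omega
  have e3 : yp r + (r + 2) ≤ n := by
    have h3 := two_yp r
    have h4 : r + 5 - 2 = r + 3 := by omega
    have h5 : r + 5 - 1 = r + 4 := by omega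
    rw [h4, h5] at e1
    nlinarith
  constructor
  · have hn : 0 < n := by omega
    refine ⟨ofTiles hn _ _ _ _ (construct (by omega) e3), ?_, ?_⟩
    · intro i j hij
      exact construct_dist (by omega) e3 i j hij
    · rw [Tiling.wall]
      have := construct_sum e3
      simp only [ofTiles]
      rw [this]
      push_cast
      ring
  · rintro W ⟨T, hT, rfl⟩
    obtain ⟨X, Y, H⟩ := T.toTiles
    have hd : Dist T.a T.b Finset.univ := by
      intro i _ j _ hij
      have h3 := hT i j hij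
      rw [Ne, Sym2.eq_iff] at h3
      push Not at h3
      exact ⟨fun h => h3.1 h.1 h.2, fun h => h3.2 h.1 h.2⟩
    have h3 := square_lower H hd (m := r + 5) (by simp) hm e1 e2
    have h4 := sum_sides H.pos
    rw [Finset.card_univ, Fintype.card_fin] at h4
    rw [Tiling.wall, Finset.sum_add_distrib]
    zify at h3 h4
    push_cast
    linarith

end Pool.Agent.Results.MP_88b750_co.WallLength
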